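import Pool.Agent.Helper96.NatBdry.DetBound

open Set Filter Topology Metric MeasureTheory
open scoped RealInnerProductSpace

namespace Pool.Agent.Results.MP_ec86f1_an.NaturalBoundary

/-- `g` is a weak derivative of `f` in the open set `D`: integration by parts against every
smooth test function with compact support in `D`, in every direction `v`. -/
def IsWeakDerivative {n : ℕ} (D : Set (EuclideanSpace ℝ (Fin n)))
    (f : EuclideanSpace ℝ (Fin n) → EuclideanSpace ℝ (Fin n))
    (g : EuclideanSpace ℝ (Fin n) → EuclideanSpace ℝ (Fin n) →L[ℝ] EuclideanSpace ℝ (Fin n)) :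
    Prop :=
  ∀ φ : EuclideanSpace ℝ (Fin n) → ℝ, ContDiff ℝ (⊤ : ℕ∞) φ → HasCompactSupport φ →
    tsupport φ ⊆ D → ∀ v : EuclideanSpace ℝ (Fin n),
      ∫ x in D, (fderiv ℝ φ x v) • f x = - ∫ x in D, φ x • g x v

/-- `f : D → ℝⁿ` is quasiregular: continuous, in the local Sobolev space `W¹ₙ` (the map and its
weak derivative `g` are in `Lⁿ` on every compact subset of `D`), and
`|g(x)|ⁿ ≤ K det g(x)` for almost every `x` in `D`, for some constant `K` in `[1, ∞)`. -/
def IsQuasiregular {n : ℕ} (D : Set (EuclideanSpace ℝ (Fin n)))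
    (f : EuclideanSpace ℝ (Fin n) → EuclideanSpace ℝ (Fin n)) : Prop :=
  ContinuousOn f D ∧
  ∃ g : EuclideanSpace ℝ (Fin n) → EuclideanSpace ℝ (Fin n) →L[ℝ] EuclideanSpace ℝ (Fin n),
    (∀ C : Set (EuclideanSpace ℝ (Fin n)), IsCompact C → C ⊆ D →
      MemLp f n (volume.restrict C) ∧ MemLp g n (volume.restrict C)) ∧
    IsWeakDerivative D f g ∧
    ∃ K : ℝ, 1 ≤ K ∧ ∀ᵐ x ∂(volume.restrict D), ‖g x‖ ^ n ≤ K * (g x).det

/-- The unit sphere is the natural boundary of `f : Bⁿ → ℝⁿ`: at no point `b` of the sphere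
does `f` have a limit from inside the ball, finite or infinite (limits are taken in the
one-point compactification `ℝⁿ ∪ {∞}`). -/
def HasNaturalBoundary {n : ℕ}
    (f : EuclideanSpace ℝ (Fin n) → EuclideanSpace ℝ (Fin n)) : Prop :=
  ∀ b ∈ sphere (0 : EuclideanSpace ℝ (Fin n)) 1,
    ¬ ∃ l : OnePoint (EuclideanSpace ℝ (Fin n)),
      Tendsto (fun x => (f x : OnePoint (EuclideanSpace ℝ (Fin n))))
        (𝓝[ball (0 : EuclideanSpace ℝ (Fin n)) 1] b) (𝓝 l)

theorem quasiregular_of_C1 {n : ℕ} {D : Set (EuclideanSpace ℝ (Fin n))} (hD : IsOpen D)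
    {f : EuclideanSpace ℝ (Fin n) → EuclideanSpace ℝ (Fin n)} (hf : ContDiffOn ℝ 1 f D)
    {K : ℝ} (hK : 1 ≤ K) (hfK : ∀ x ∈ D, ‖fderiv ℝ f x‖ ^ n ≤ K * (fderiv ℝ f x).det) :
    IsQuasiregular D f := by
  have hcf : ContinuousOn f D := hf.continuousOn
  have hcd : ContinuousOn (fderiv ℝ f) D := hf.continuousOn_fderiv_of_isOpen hD (by norm_num)
  have hdiff : ∀ x ∈ D, DifferentiableAt ℝ f x := fun x hx =>
    (hf.differentiableOn (by norm_num)).differentiableAt (hD.mem_nhds hx)
  refine ⟨hcf, fderiv ℝ f, ?_, ?_, K, hK, ?_⟩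
  · intro C hC hCD
    have hfin : IsFiniteMeasure (volume.restrict C) :=
      ⟨by rw [Measure.restrict_apply_univ]; exact hC.measure_lt_top⟩
    constructor
    · obtain ⟨R, hR⟩ := hC.exists_bound_of_continuousOn (hcf.mono hCD)
      refine MemLp.of_bound ((hcf.mono hCD).aestronglyMeasurable hC.measurableSet) R ?_
      exact (ae_restrict_iff' hC.measurableSet).2 (Eventually.of_forall hR)
    · obtain ⟨R, hR⟩ := hC.exists_bound_of_continuousOn (hcd.mono hCD)
      refine MemLp.of_bound ((hcd.mono hCD).aestronglyMeasurable hC.measurableSet) R ?_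
      exact (ae_restrict_iff' hC.measurableSet).2 (Eventually.of_forall hR)
  · intro φ hφ hφc hφD v
    have hφ1 : ContDiff ℝ 1 φ := hφ.of_le (by exact_mod_cast le_top)
    have hsupp : ∀ x, x ∉ tsupport φ → φ x = 0 := fun x hx => image_eq_zero_of_notMem_tsupport hx
    have hsuppd : ∀ x, x ∉ tsupport φ → fderiv ℝ φ x = 0 := by
      intro x hx
      by_contra h
      exact hx (tsupport_fderiv_subset ℝ (subset_tsupport _ h))
    have hint : ∀ h : EuclideanSpace ℝ (Fin n) → EuclideanSpace ℝ (Fin n),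
        ContinuousOn h (tsupport φ) → (∀ x, x ∉ tsupport φ → h x = 0) → Integrable h := by
      intro h hc h0
      rw [← integrableOn_iff_integrable_of_support_subset (s := tsupport φ)]
      · exact hc.integrableOn_compact hφc
      · intro x hx
        by_contra hx'
        exact hx (h0 x hx')
    have hfd : Continuous (fun x => fderiv ℝ φ x v) :=
      (hφ1.continuous_fderiv (by norm_num)).clm_apply continuous_const
    have hmain := integral_smul_fderiv_eq_neg_fderiv_smul_of_integrable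
      (μ := (volume : Measure (EuclideanSpace ℝ (Fin n)))) (f := φ) (g := f) (v := v)
      (hint _ (hfd.continuousOn.smul (hcf.mono hφD)) (fun x hx => by simp [hsuppd x hx]))
      (hint _ (hφ1.continuous.continuousOn.smul
        ((hcd.mono hφD).clm_apply continuousOn_const)) (fun x hx => by simp [hsupp x hx]))
      (hint _ (hφ1.continuous.continuousOn.smul (hcf.mono hφD))
        (fun x hx => by simp [hsupp x hx]))
      (fun x _ => hφ1.differentiable (by norm_num) x) (fun x hx => hdiff x (hφD hx))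
    rw [setIntegral_eq_integral_of_forall_compl_eq_zero,
      setIntegral_eq_integral_of_forall_compl_eq_zero, hmain, neg_neg]
    · intro x hx
      simp [hsupp x (fun h => hx (hφD h))]
    · intro x hx
      simp [hsuppd x (fun h => hx (hφD h))]
  · exact (ae_restrict_iff' hD.measurableSet).2 (Eventually.of_forall hfK)

/-- For every `n ≥ 3` there is a bounded quasiregular mapping of the unit ball of `ℝⁿ` whose
natural boundary is the whole unit sphere. It can even be taken `C¹` with everywhere positive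
Jacobian, with the distortion inequality holding at every point. -/
theorem result (n : ℕ) (hn : 3 ≤ n) :
    ∃ f : EuclideanSpace ℝ (Fin n) → EuclideanSpace ℝ (Fin n),
      IsQuasiregular (ball 0 1) f ∧
      Bornology.IsBounded (f '' ball 0 1) ∧
      HasNaturalBoundary f ∧
      ContDiffOn ℝ 1 f (ball 0 1) ∧
      ∃ K : ℝ, 1 ≤ K ∧ ∀ x ∈ ball (0 : EuclideanSpace ℝ (Fin n)) 1,
        0 < (fderiv ℝ f x).det ∧ ‖fderiv ℝ f x‖ ^ n ≤ K * (fderiv ℝ f x).det := by
  have hrank : Module.finrank ℝ (EuclideanSpace ℝ (Fin n)) = n := by simp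
  have hnt : Nontrivial (EuclideanSpace ℝ (Fin n)) :=
    Module.nontrivial_of_finrank_pos (R := ℝ) (by omega)
  obtain ⟨κ, hκ, F, hF, hwit⟩ := Pool.Agent.Helper96.NatBdry.exists_map
    (E := EuclideanSpace ℝ (Fin n)) (by omega)
  obtain ⟨K, hK, hdet⟩ := Pool.Agent.Helper96.NatBdry.exists_det_bound
    (E := EuclideanSpace ℝ (Fin n)) hκ
  rw [hrank] at hdet
  have hloc : ∀ x ∈ ball (0 : EuclideanSpace ℝ (Fin n)) 1, ContDiffAt ℝ 1 F x ∧
      fderiv ℝ F x ∈ Pool.Agent.Helper96.NatBdry.Cl (EuclideanSpace ℝ (Fin n)) κ ∧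
      ‖F x‖ < 2 := by
    intro x hx
    rw [mem_ball_zero_iff] at hx
    obtain ⟨f, hfg, hfF⟩ := hF ((‖x‖ + 1) / 2) (by linarith)
    have hev : F =ᶠ[𝓝 x] f := by
      have : {y : EuclideanSpace ℝ (Fin n) | ‖y‖ < (‖x‖ + 1) / 2} ∈ 𝓝 x :=
        (isOpen_lt continuous_norm continuous_const).mem_nhds (by
          show ‖x‖ < (‖x‖ + 1) / 2
          linarith)
      filter_upwards [this] with y hy
      exact hfF y (le_of_lt hy)
    refine ⟨hfg.1.contDiffAt.congr_of_eventuallyEq hev, ?_, ?_⟩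
    · rw [hev.fderiv_eq]
      exact (hfg.2 x hx.le).1
    · rw [hev.self_of_nhds]
      exact (hfg.2 x hx.le).2
  have hC1 : ContDiffOn ℝ 1 F (ball 0 1) := fun x hx => (hloc x hx).1.contDiffWithinAt
  have hKx : ∀ x ∈ ball (0 : EuclideanSpace ℝ (Fin n)) 1,
        0 < (fderiv ℝ F x).det ∧ ‖fderiv ℝ F x‖ ^ n ≤ K * (fderiv ℝ F x).det := fun x hx =>
    ⟨Pool.Agent.Helper96.NatBdry.Cl_det_pos hκ (hloc x hx).2.1, hdet _ (hloc x hx).2.1⟩
  have hbdd : ∀ x ∈ ball (0 : EuclideanSpace ℝ (Fin n)) 1, F x ∈ closedBall 0 2 := fun x hx => by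
    rw [mem_closedBall_zero_iff]; exact (hloc x hx).2.2.le
  refine ⟨F, quasiregular_of_C1 isOpen_ball hC1 hK fun x hx => (hKx x hx).2, ?_, ?_, hC1, K, hK,
    hKx⟩
  · refine (isBounded_closedBall (x := (0 : EuclideanSpace ℝ (Fin n))) (r := 2)).subset ?_
    rintro _ ⟨x, hx, rfl⟩
    exact hbdd x hx
  · rintro b hb ⟨l, hl⟩
    have hb1 : ‖b‖ = 1 := by rwa [mem_sphere_zero_iff_norm] at hb
    have hcl : b ∈ closure (ball (0 : EuclideanSpace ℝ (Fin n)) 1) := by
      rw [closure_ball _ one_ne_zero, mem_closedBall_zero_iff, hb1]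
    have hneBot : (𝓝[ball (0 : EuclideanSpace ℝ (Fin n)) 1] b).NeBot :=
      mem_closure_iff_nhdsWithin_neBot.1 hcl
    induction l with
    | infty =>
      have h1 : ∀ᶠ x in 𝓝[ball (0 : EuclideanSpace ℝ (Fin n)) 1] b,
          (F x : OnePoint (EuclideanSpace ℝ (Fin n))) ∈
            ((↑) '' (closedBall (0 : EuclideanSpace ℝ (Fin n)) 2) :
              Set (OnePoint (EuclideanSpace ℝ (Fin n)))) := by
        filter_upwards [self_mem_nhdsWithin] with x hx
        exact ⟨F x, hbdd x hx, rfl⟩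
      have h2 : IsClosed ((↑) '' (closedBall (0 : EuclideanSpace ℝ (Fin n)) 2) :
          Set (OnePoint (EuclideanSpace ℝ (Fin n)))) :=
        OnePoint.isClosed_image_coe.2 ⟨isClosed_closedBall, isCompact_closedBall _ _⟩
      obtain ⟨y, _, hy⟩ := h2.mem_of_tendsto hl h1
      exact OnePoint.coe_ne_infty y hy
    | coe y =>
      have h1 : Tendsto F (𝓝[ball (0 : EuclideanSpace ℝ (Fin n)) 1] b) (𝓝 y) :=
        OnePoint.isOpenEmbedding_coe.isInducing.tendsto_nhds_iff.2 hl
      obtain ⟨δ, hδ, h2⟩ := Metric.tendsto_nhdsWithin_nhds.1 h1 (1 / 4) (by norm_num)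
      obtain ⟨x₁, x₂, hx₁, hx₂, hd₁, hd₂, h3⟩ := hwit b hb1 δ hδ
      have h4 := h2 (x := x₁) (by rwa [mem_ball_zero_iff]) (by rwa [dist_eq_norm])
      have h5 := h2 (x := x₂) (by rwa [mem_ball_zero_iff]) (by rwa [dist_eq_norm])
      have h6 : dist (F x₁) (F x₂) ≤ dist (F x₁) y + dist (F x₂) y := dist_triangle_right _ _ _
      rw [dist_eq_norm (F x₁) (F x₂)] at h6
      linarith

end Pool.Agent.Results.MP_ec86f1_an.NaturalBoundary
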